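import Mathlib
set_option autoImplicit false
namespace Pool.Agent.Results.MP_d8de41_al.Yes

universe u

/-- sequences equal to the identity on a set in `U` -/
def Nul (G : ℕ → Type u) [∀ i, Group (G i)] (U : Ultrafilter ℕ) : Subgroup (∀ i, G i) where
  carrier := {f | {i | f i = 1} ∈ U}
  mul_mem' := fun {f g} hf hg => Filter.mem_of_superset (Filter.inter_mem hf hg) fun i h => by
    simp [show f i = 1 from h.1, show g i = 1 from h.2]
  one_mem' := Filter.mem_of_superset Filter.univ_mem fun _ _ => rfl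
  inv_mem' := fun {f} hf => by simpa using hf

instance (G : ℕ → Type u) [∀ i, Group (G i)] (U : Ultrafilter ℕ) : (Nul G U).Normal :=
  ⟨fun f hf g => Filter.mem_of_superset hf fun i h => by simp [show f i = 1 from h]⟩

/-- `H` is a homomorphic image of a nonprincipal ultraproduct over `ℕ` of groups. -/
def UI (H : Type) [Group H] : Prop :=
  ∃ (G : ℕ → Type u) (_ : ∀ i, Group (G i)) (U : Ultrafilter ℕ), (∀ n : ℕ, {n} ∉ U) ∧
    ∃ φ : ((∀ i, G i) ⧸ Nul G U) →* H, Function.Surjective φ

/-- the direct sum of countably many copies of `S₃` -/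
def S : Subgroup (ℕ → Equiv.Perm (Fin 3)) where
  carrier := {f | (Function.mulSupport f).Finite}
  mul_mem' := fun {f g} hf hg => (hf.union hg).subset (Function.mulSupport_mul f g)
  one_mem' := by simp
  inv_mem' := fun {f} hf => by simpa using hf

def dl (a : Equiv.Perm (Fin 3)) (n : ℕ) : S :=
  ⟨Pi.mulSingle n a, (Set.finite_singleton n).subset (Pi.mulSupport_mulSingle_subset)⟩

theorem s3 : ∀ z : Equiv.Perm (Fin 3),
    z * z * (Equiv.swap 0 1 * z⁻¹ * (Equiv.swap 0 1)⁻¹) * finRotate 3 ≠ 1 := by decide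

theorem s6 : ∀ z : Equiv.Perm (Fin 3), z ^ 6 = 1 := by decide +kernel

def Z {K : Type u} [Group K] (t c : ℕ → K) : ℕ → ℕ → K
  | 0, _ => 1
  | k + 1, n => Z t c k (n + 1) * Z t c k (n + 1) * (t n * (Z t c k (n + 1))⁻¹ * (t n)⁻¹) * c n

theorem result : (∀ h : S, h ^ 6 = 1) ∧ ¬ UI.{u} S := by
  refine ⟨fun h => Subtype.ext (funext fun i => s6 _), ?_⟩
  rintro ⟨G, _, U, hU, φ, hφ⟩
  let ψ := φ.comp (QuotientGroup.mk' (Nul G U))
  have hψ : Function.Surjective ψ := hφ.comp (QuotientGroup.mk'_surjective _)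
  choose t ht using fun n => hψ (dl (Equiv.swap 0 1) n)
  choose c hc using fun n => hψ (dl (finRotate 3) n)
  let z : ℕ → ∀ i, G i := fun n i => Z (fun m => t m i) (fun m => c m i) (i - n) n
  have hz : ∀ n, ψ (z n) = ψ (z (n + 1) * z (n + 1) * (t n * (z (n + 1))⁻¹ * (t n)⁻¹) * c n) := by
    intro n
    refine congrArg φ (QuotientGroup.eq.2 ?_)
    have h1 : (Set.Iic n)ᶜ ∈ U := by
      rw [Ultrafilter.compl_mem_iff_notMem]
      intro h
      obtain ⟨a, -, ha⟩ := Ultrafilter.eq_pure_of_finite_mem (Set.finite_Iic n) h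
      exact hU a (by rw [ha]; simp)
    refine Filter.mem_of_superset h1 fun i hi => ?_
    have e : i - n = (i - (n + 1)) + 1 := by
      simp only [Set.mem_compl_iff, Set.mem_Iic] at hi; omega
    show (z n i)⁻¹ * _ = 1
    rw [inv_mul_eq_one]
    simp only [z, e, Z]
    rfl
  simp only [map_mul, map_inv, ht, hc] at hz
  have h1 : ∀ m, (ψ (z m)).1 m ≠ 1 := by
    intro m
    rw [hz]
    simpa [dl] using s3 ((ψ (z (m + 1))).1 m)
  have h2 : ∀ m n, n ≤ m → (ψ (z 0)).1 m = (ψ (z n)).1 m := by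
    intro m n
    induction n with
    | zero => intro _; rfl
    | succ n ih =>
      intro h
      rw [ih (by omega), hz]
      have : m ≠ n := by omega
      simp [dl, Pi.mulSingle_eq_of_ne this]
  refine Set.infinite_univ ((ψ (z 0)).2.subset fun m _ => ?_)
  rw [Function.mem_mulSupport, h2 m m le_rfl]
  exact h1 m

end Pool.Agent.Results.MP_d8de41_al.Yes
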